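import Mathlib

set_option autoImplicit false

open Finset Real

namespace Pool.Agent.W94.KN

section
variable {V : Type*} [NormedAddCommGroup V] [InnerProductSpace ℝ V]

/-- pushing two points at distance between `r` and `R` from a body of constant width one
out to distance `R` does not decrease their distance below `2 r` -/
theorem push (D u v : V) (a b r R : ℝ) (hu : ‖u‖ = 1) (hv : ‖v‖ = 1)
    (h1 : ‖D‖ ^ 2 ≤ 2 * inner ℝ D u) (h2 : ‖D‖ ^ 2 ≤ - (2 * inner ℝ D v))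
    (hr : r = 0.4226) (hR : R = 0.5774)
    (ha : r ≤ a) (ha' : a ≤ R) (hb : r ≤ b) (hb' : b ≤ R)
    (hd : 2 * r ≤ ‖D + a • u - b • v‖) : 2 * r ≤ ‖D + R • u - R • v‖ := by
  have hexp : ∀ s t : ℝ, ‖D + s • u - t • v‖ ^ 2
      = ‖D‖ ^ 2 + 2 * s * inner ℝ D u - 2 * t * inner ℝ D v + s ^ 2 + t ^ 2
        - 2 * s * t * inner ℝ u v := by
    intro s t
    rw [← real_inner_self_eq_norm_sq, ← real_inner_self_eq_norm_sq]
    have huu : inner ℝ u u = (1 : ℝ) := by rw [real_inner_self_eq_norm_sq, hu]; norm_num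
    have hvv : inner ℝ v v = (1 : ℝ) := by rw [real_inner_self_eq_norm_sq, hv]; norm_num
    simp only [inner_add_left, inner_add_right, inner_sub_left, inner_sub_right,
      real_inner_smul_left, real_inner_smul_right, huu, hvv]
    rw [real_inner_comm D u, real_inner_comm D v, real_inner_comm u v]
    ring
  set q := inner ℝ D u with hq
  set p := - inner ℝ D v with hp
  set c := inner ℝ u v with hc
  set n := ‖D‖ with hn
  have hn0 : 0 ≤ n := norm_nonneg _
  have hF : 4 * r ^ 2 ≤ n ^ 2 + 2 * a * q + 2 * b * p + a ^ 2 + b ^ 2 - 2 * a * b * c := by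
    have h := hexp a b
    have h3 : (2 * r) ^ 2 ≤ ‖D + a • u - b • v‖ ^ 2 := by
      apply pow_le_pow_left₀ (by rw [hr]; norm_num) hd
    rw [h] at h3
    nlinarith
  have hG : 4 * r ^ 2 ≤ n ^ 2 + 2 * R * q + 2 * R * p + R ^ 2 + R ^ 2 - 2 * R * R * c → 
      2 * r ≤ ‖D + R • u - R • v‖ := by
    intro h
    have h3 : (2 * r) ^ 2 ≤ ‖D + R • u - R • v‖ ^ 2 := by
      rw [hexp R R]; nlinarith
    exact le_of_sq_le_sq h3 (norm_nonneg _)
  apply hG
  -- the vector u - v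
  set w := ‖u - v‖ with hw
  have hw2 : w ^ 2 = 2 - 2 * c := by
    rw [hw, @norm_sub_sq_real, hu, hv]; ring
  have hw0 : 0 ≤ w := norm_nonneg _
  have hqp : q + p ≤ n * w := by
    have : q + p = inner ℝ D (u - v) := by rw [inner_sub_right, hq, hp]; ring
    rw [this]
    exact real_inner_le_norm _ _
  have hq0 : n ^ 2 ≤ 2 * q := h1
  have hp0 : n ^ 2 ≤ 2 * p := by rw [hp]; linarith
  have hnw : n ≤ w := by
    by_contra hcon
    push Not at hcon
    have : 0 < n := lt_of_le_of_lt hw0 hcon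
    nlinarith
  have hcw : c = 1 - w ^ 2 / 2 := by linarith
  rw [hcw] at hF ⊢
  clear_value w c q p n
  have hq00 : 0 ≤ q := by nlinarith
  have hp00 : 0 ≤ p := by nlinarith
  -- lower bound for w
  have h0R : 0 ≤ R := by rw [hR]; norm_num
  have h0a : 0 ≤ a := le_trans (by rw [hr]; norm_num) ha
  have h0b : 0 ≤ b := le_trans (by rw [hr]; norm_num) hb
  have hRq : a * q ≤ R * q := mul_le_mul_of_nonneg_right ha' hq00
  have hRp : b * p ≤ R * p := mul_le_mul_of_nonneg_right hb' hp00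
  have hw1 : 4 * r ^ 2 - (a - b) ^ 2 ≤ w ^ 2 * (1 + R) ^ 2 := by
    have e2 : n ^ 2 ≤ w ^ 2 := pow_le_pow_left₀ hn0 hnw 2
    have e3 : n * w ≤ w ^ 2 := by
      rw [sq]; exact mul_le_mul_of_nonneg_right hnw hw0
    have e6 : R * (q + p) ≤ R * w ^ 2 := mul_le_mul_of_nonneg_left (hqp.trans e3) h0R
    have e4 : a * b ≤ R ^ 2 := by
      rw [sq]; exact mul_le_mul ha' hb' h0b h0R
    have e5 : a * b * w ^ 2 ≤ R ^ 2 * w ^ 2 := mul_le_mul_of_nonneg_right e4 (sq_nonneg _)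
    linarith
  -- the gain
  have hgain : (a - b) ^ 2 ≤ (R ^ 2 - a * b) * w ^ 2 := by
    have hδ : ∀ s t : ℝ, r ≤ s → s ≤ t → t ≤ R → 4 * r ^ 2 - (t - s) ^ 2 ≤ w ^ 2 * (1 + R) ^ 2 →
        (t - s) ^ 2 ≤ (R ^ 2 - s * t) * w ^ 2 := by
      intro s t hs hst ht hws
      have h0s : 0 ≤ s := le_trans (by rw [hr]; norm_num) hs
      have f1 : R * (t - s) ≤ R ^ 2 - s * t := by
        have := mul_nonneg (sub_nonneg.mpr ht) (add_nonneg h0R h0s)
        linarith
      have f2 : t - s ≤ R - r := by linarith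
      have f3 : (0.2774 : ℝ) ≤ w ^ 2 := by
        rw [hr, hR] at f2
        rw [hr, hR] at hws
        have : (t - s) ^ 2 ≤ 0.1548 ^ 2 := by
          apply pow_le_pow_left₀ (by linarith)
          linarith
        linarith
      have f4 : (t - s) ≤ R * w ^ 2 := by
        rw [hR]
        rw [hr, hR] at f2
        linarith
      have f5 : 0 ≤ t - s := by linarith
      calc (t - s) ^ 2 = (t - s) * (t - s) := by ring
        _ ≤ (t - s) * (R * w ^ 2) := mul_le_mul_of_nonneg_left f4 f5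
        _ = (R * (t - s)) * w ^ 2 := by ring
        _ ≤ (R ^ 2 - s * t) * w ^ 2 := mul_le_mul_of_nonneg_right f1 (sq_nonneg _)
    rcases le_total a b with hab | hab
    · have := hδ a b ha hab hb' (by linarith)
      linarith
    · have := hδ b a hb hab ha' hw1
      linarith
  linarith

/-- Jung for three points, the side `y z` is the longest -/
theorem jung3_aux (x y z : V) (q : ℝ) (h1 : ‖y - x‖ ^ 2 ≤ ‖y - z‖ ^ 2)
    (h2 : ‖z - x‖ ^ 2 ≤ ‖y - z‖ ^ 2) (h3 : ‖y - z‖ ^ 2 ≤ q) :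
    ∃ o : V, ‖o - x‖ ^ 2 ≤ q / 3 ∧ ‖o - y‖ ^ 2 ≤ q / 3 ∧ ‖o - z‖ ^ 2 ≤ q / 3 := by
  set s := y - x with hs
  set t := z - x with ht
  have hyz : y - z = s - t := by rw [hs, ht]; abel
  rw [hyz] at h1 h2 h3
  have hC : ‖s - t‖ ^ 2 = ‖s‖ ^ 2 - 2 * inner ℝ s t + ‖t‖ ^ 2 := by rw [@norm_sub_sq_real]
  set U := ‖s‖ ^ 2 with hU
  set T := ‖t‖ ^ 2 with hT
  set P := inner ℝ s t with hP
  have hU0 : 0 ≤ U := by positivity
  have hT0 : 0 ≤ T := by positivity
  have hexp : ∀ α β : ℝ, ‖α • s + β • t‖ ^ 2 = α ^ 2 * U + 2 * α * β * P + β ^ 2 * T := by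
    intro α β
    rw [@norm_add_sq_real, norm_smul, norm_smul, mul_pow, mul_pow, real_inner_smul_left,
      real_inner_smul_right, Real.norm_eq_abs, Real.norm_eq_abs, sq_abs, sq_abs]
    ring
  have hgen : ∀ α β : ℝ, (α ^ 2 * U + 2 * α * β * P + β ^ 2 * T ≤ q / 3) →
      ((α - 1) ^ 2 * U + 2 * (α - 1) * β * P + β ^ 2 * T ≤ q / 3) →
      (α ^ 2 * U + 2 * α * (β - 1) * P + (β - 1) ^ 2 * T ≤ q / 3) →
      ∃ o : V, ‖o - x‖ ^ 2 ≤ q / 3 ∧ ‖o - y‖ ^ 2 ≤ q / 3 ∧ ‖o - z‖ ^ 2 ≤ q / 3 := by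
    intro α β g1 g2 g3
    refine ⟨x + α • s + β • t, ?_, ?_, ?_⟩
    · have : x + α • s + β • t - x = α • s + β • t := by abel
      rw [this, hexp]; exact g1
    · have : x + α • s + β • t - y = (α - 1) • s + β • t := by
        rw [sub_smul, one_smul, hs]; abel
      rw [this, hexp]; exact g2
    · have : x + α • s + β • t - z = α • s + (β - 1) • t := by
        rw [sub_smul, one_smul, ht]; abel
      rw [this, hexp]; exact g3
  have hCS : P ^ 2 ≤ U * T := by
    have := real_inner_mul_inner_self_le s t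
    rw [real_inner_self_eq_norm_sq, real_inner_self_eq_norm_sq] at this
    rw [sq]; exact this
  clear_value U T P
  rw [hC] at h1 h2 h3
  rcases le_or_gt P 0 with hP0 | hP0
  · apply hgen (1 / 2) (1 / 2) <;> nlinarith
  · have hP1 : 2 * P ≤ U := by linarith
    have hP2 : 2 * P ≤ T := by linarith
    have hG : 0 < U * T - P ^ 2 := by nlinarith
    have hkey : U * T * (U + T - 2 * P) / (4 * (U * T - P ^ 2)) ≤ q / 3 := by
      rw [div_le_div_iff₀ (by linarith) (by norm_num)]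
      have e1 : 3 * (U * T) ≤ 4 * (U * T - P ^ 2) := by nlinarith
      have e2 : 0 ≤ U * T := by positivity
      have e3 : U * T * (U + T - 2 * P) ≤ U * T * q := by
        apply mul_le_mul_of_nonneg_left _ e2
        linarith
      have e4 : 0 ≤ q := by linarith
      nlinarith
    set G := U * T - P ^ 2 with hGd
    apply hgen (T * (U - P) / (2 * G)) (U * (T - P) / (2 * G))
    · refine le_trans (le_of_eq ?_) hkey
      field_simp
      rw [hGd]; ring
    · refine le_trans (le_of_eq ?_) hkey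
      field_simp
      rw [hGd]; ring
    · refine le_trans (le_of_eq ?_) hkey
      field_simp
      rw [hGd]; ring

theorem jung3 (x y z : V) (q : ℝ) (h1 : ‖y - x‖ ^ 2 ≤ q) (h2 : ‖z - x‖ ^ 2 ≤ q)
    (h3 : ‖y - z‖ ^ 2 ≤ q) :
    ∃ o : V, ‖o - x‖ ^ 2 ≤ q / 3 ∧ ‖o - y‖ ^ 2 ≤ q / 3 ∧ ‖o - z‖ ^ 2 ≤ q / 3 := by
  rcases le_total (‖y - x‖ ^ 2) (‖y - z‖ ^ 2) with c1 | c1
  · rcases le_total (‖z - x‖ ^ 2) (‖y - z‖ ^ 2) with c2 | c2
    · exact jung3_aux x y z q c1 c2 h3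
    · -- longest is z x, opposite y
      obtain ⟨o, ho1, ho2, ho3⟩ := jung3_aux y z x q (by rwa [norm_sub_rev z y])
        (by rw [norm_sub_rev x y]; exact c1.trans c2) h2
      exact ⟨o, ho3, ho1, ho2⟩
  · rcases le_total (‖z - x‖ ^ 2) (‖y - x‖ ^ 2) with c2 | c2
    · -- longest is y x, opposite z
      obtain ⟨o, ho1, ho2, ho3⟩ := jung3_aux z y x q c1 (by rwa [norm_sub_rev x z]) h1
      exact ⟨o, ho3, ho2, ho1⟩
    · obtain ⟨o, ho1, ho2, ho3⟩ := jung3_aux y z x q (by rw [norm_sub_rev z y]; exact c1.trans c2)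
        (by rwa [norm_sub_rev x y]) h2
      exact ⟨o, ho3, ho1, ho2⟩

end

end Pool.Agent.W94.KN
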