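import Pool.Agent.W94.KN.Oct
import Pool.Agent.W94.KN.Geo

set_option autoImplicit false

open Finset Real

namespace Pool.Agent.W94.KN

abbrev E2 := EuclideanSpace ℝ (Fin 2)

theorem nearest (K : Set E2) (hc : Convex ℝ K) (hk : IsCompact K) (hne : K.Nonempty) (o : E2) :
    ∃ p ∈ K, (∀ y ∈ K, ‖o - p‖ ≤ ‖o - y‖) ∧ ∀ y ∈ K, inner ℝ (y - p) (o - p) ≤ 0 := by
  obtain ⟨p, hp, hpe⟩ := exists_norm_eq_iInf_of_complete_convex hne hk.isComplete hc o
  refine ⟨p, hp, ?_, ?_⟩
  · intro y hy
    rw [hpe]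
    exact ciInf_le ⟨0, fun _ ⟨_, h⟩ => h ▸ norm_nonneg _⟩ (⟨y, hy⟩ : K)
  · intro y hy
    have := (norm_eq_iInf_iff_real_inner_le_zero hc hp).mp hpe y hy
    rw [real_inner_comm]; exact this

theorem width_attained (K : Set E2) (hk : IsCompact K) (hne : K.Nonempty) (w : ℝ)
    (hwid : ∀ u : E2, ‖u‖ = 1 →
      sSup ((fun x => inner ℝ x u) '' K) - sInf ((fun x => inner ℝ x u) '' K) = w)
    (u : E2) (hu : ‖u‖ = 1) :
    ∃ M ∈ K, ∃ m ∈ K, (∀ x ∈ K, inner ℝ m u ≤ inner ℝ x u ∧ inner ℝ x u ≤ inner ℝ M u) ∧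
      inner ℝ M u - inner ℝ m u = w := by
  have hcont : ContinuousOn (fun x : E2 => inner ℝ x u) K :=
    (continuous_id.inner continuous_const).continuousOn
  obtain ⟨M, hM, hM2⟩ := hk.exists_isMaxOn hne hcont
  obtain ⟨m, hm, hm2⟩ := hk.exists_isMinOn hne hcont
  have h1 : sSup ((fun x : E2 => inner ℝ x u) '' K) = inner ℝ M u := by
    apply IsGreatest.csSup_eq
    refine ⟨⟨M, hM, rfl⟩, ?_⟩
    rintro _ ⟨x, hx, rfl⟩
    exact hM2 hx
  have h2 : sInf ((fun x : E2 => inner ℝ x u) '' K) = inner ℝ m u := by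
    apply IsLeast.csInf_eq
    refine ⟨⟨m, hm, rfl⟩, ?_⟩
    rintro _ ⟨x, hx, rfl⟩
    exact hm2 hx
  refine ⟨M, hM, m, hm, fun x hx => ⟨hm2 hx, hM2 hx⟩, ?_⟩
  have := hwid u hu
  rw [h1, h2] at this
  exact this

theorem unitize (v : E2) (hv : v ≠ 0) : ‖(‖v‖⁻¹ : ℝ) • v‖ = 1 := by
  rw [norm_smul, norm_inv, norm_norm]
  exact inv_mul_cancel₀ (norm_ne_zero_iff.mpr hv)

theorem inner_unitize (v : E2) (hv : v ≠ 0) : inner ℝ v ((‖v‖⁻¹ : ℝ) • v) = ‖v‖ := by
  rw [real_inner_smul_right, real_inner_self_eq_norm_sq, sq, ← mul_assoc,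
    inv_mul_cancel₀ (norm_ne_zero_iff.mpr hv), one_mul]

theorem width_facts (K : Set E2) (hc : Convex ℝ K) (hk : IsCompact K) (hne : K.Nonempty)
    (w : ℝ) (hw : 0 < w)
    (hwid : ∀ u : E2, ‖u‖ = 1 →
      sSup ((fun x => inner ℝ x u) '' K) - sInf ((fun x => inner ℝ x u) '' K) = w) :
    (∀ x ∈ K, ∀ y ∈ K, ‖x - y‖ ≤ w) ∧ (∀ y, (∀ x ∈ K, ‖y - x‖ ≤ w) → y ∈ K) ∧
    (∀ p ∈ K, ∀ u : E2, ‖u‖ = 1 → (∀ y ∈ K, inner ℝ (y - p) u ≤ 0) → p - w • u ∈ K) := by
  have hatt := width_attained K hk hne w hwid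
  have hdiam : ∀ x ∈ K, ∀ y ∈ K, ‖x - y‖ ≤ w := by
    intro x hx y hy
    by_cases hxy : x - y = 0
    · rw [hxy, norm_zero]; exact hw.le
    · obtain ⟨M, hM, m, hm, hb, he⟩ := hatt _ (unitize _ hxy)
      have h1 := (hb x hx).2
      have h2 := (hb y hy).1
      have h3 := inner_unitize (x - y) hxy
      rw [inner_sub_left] at h3
      linarith
  refine ⟨hdiam, ?_, ?_⟩
  · intro y hy
    by_contra hyK
    obtain ⟨p, hp, -, hp2⟩ := nearest K hc hk hne y
    have hyp : y - p ≠ 0 := by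
      intro h
      rw [sub_eq_zero] at h
      exact hyK (h ▸ hp)
    obtain ⟨M, hM, m, hm, hb, he⟩ := hatt _ (unitize _ hyp)
    have h1 : inner ℝ M ((‖y - p‖⁻¹ : ℝ) • (y - p)) ≤ inner ℝ p ((‖y - p‖⁻¹ : ℝ) • (y - p)) := by
      have := hp2 M hM
      have h2 : inner ℝ (M - p) ((‖y - p‖⁻¹ : ℝ) • (y - p)) ≤ 0 := by
        rw [real_inner_smul_right]
        exact mul_nonpos_of_nonneg_of_nonpos (by positivity) this
      rw [inner_sub_left] at h2
      linarith
    have h3 := inner_unitize (y - p) hyp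
    rw [inner_sub_left] at h3
    have h4 : inner ℝ (y - m) ((‖y - p‖⁻¹ : ℝ) • (y - p)) ≤ ‖y - m‖ := by
      have := real_inner_le_norm (y - m) ((‖y - p‖⁻¹ : ℝ) • (y - p))
      rw [unitize _ hyp, mul_one] at this
      exact this
    rw [inner_sub_left] at h4
    have h5 := hy m hm
    have h6 : 0 < ‖y - p‖ := norm_pos_iff.mpr hyp
    linarith
  · intro p hp u hu hpu
    obtain ⟨M, hM, m, hm, hb, he⟩ := hatt u hu
    have h1 : inner ℝ M u ≤ inner ℝ p u := by
      have := hpu M hM
      rw [inner_sub_left] at this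
      linarith
    have h2 : w ≤ inner ℝ (p - m) u := by
      rw [inner_sub_left]; linarith
    have h3 := hdiam p hp m hm
    have h4 : ‖(p - m) - w • u‖ ^ 2 ≤ 0 := by
      rw [@norm_sub_sq_real, norm_smul, hu, real_inner_smul_right, Real.norm_eq_abs,
        abs_of_pos hw]
      have h5 : 0 ≤ ‖p - m‖ := norm_nonneg _
      nlinarith
    have h5 : (p - m) - w • u = 0 := by
      rw [← norm_eq_zero]
      exact pow_eq_zero_iff (two_ne_zero) |>.mp (le_antisymm h4 (sq_nonneg _))
    have h6 : p - w • u = m := by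
      have : p - w • u = ((p - m) - w • u) + m := by abel
      rw [this, h5, zero_add]
    rw [h6]; exact hm

theorem jungK (K : Set E2) (hne : K.Nonempty) (w : ℝ) (hw : 0 < w)
    (hdiam : ∀ x ∈ K, ∀ y ∈ K, ‖x - y‖ ≤ w) : ∃ o : E2, ∀ x ∈ K, ‖x - o‖ ≤ 0.5774 * w := by
  have h3 : ∀ x y z : K, ∃ o : E2, ‖o - x‖ ≤ 0.5774 * w ∧ ‖o - y‖ ≤ 0.5774 * w ∧
      ‖o - z‖ ≤ 0.5774 * w := by
    intro x y z
    have hs : ∀ a b : K, ‖(a : E2) - b‖ ^ 2 ≤ w ^ 2 := fun a b =>
      pow_le_pow_left₀ (norm_nonneg _) (hdiam a a.2 b b.2) 2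
    obtain ⟨o, h1, h2, h3⟩ := jung3 (x : E2) y z (w ^ 2) (hs _ _) (hs _ _) (hs _ _)
    have hc : ∀ a : E2, ‖o - a‖ ^ 2 ≤ w ^ 2 / 3 → ‖o - a‖ ≤ 0.5774 * w := by
      intro a ha
      apply le_of_sq_le_sq _ (by positivity)
      nlinarith
    exact ⟨o, hc _ h1, hc _ h2, hc _ h3⟩
  have hH := Convex.helly_theorem_compact' (𝕜 := ℝ) (F := fun x : K => Metric.closedBall (x : E2) (0.5774 * w))
    (fun x => convex_closedBall _ _) (fun x => isCompact_closedBall _ _) (by
      intro I hI
      rw [finrank_euclideanSpace, Fintype.card_fin] at hI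
      have hcase : I.card = 0 ∨ I.card = 1 ∨ I.card = 2 ∨ I.card = 3 := by omega
      obtain ⟨x0, hx0⟩ := hne
      rcases hcase with h | h | h | h
      · rw [Finset.card_eq_zero] at h
        subst h
        simp
      · obtain ⟨x, rfl⟩ := Finset.card_eq_one.mp h
        refine ⟨x, ?_⟩
        simp only [Finset.mem_singleton, Set.iInter_iInter_eq_left, Metric.mem_closedBall, dist_self]
        positivity
      · obtain ⟨x, y, -, rfl⟩ := Finset.card_eq_two.mp h
        obtain ⟨o, h1, h2, h3⟩ := h3 x y y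
        refine ⟨o, ?_⟩
        simp only [Set.mem_iInter, Finset.mem_insert, Finset.mem_singleton, Metric.mem_closedBall,
          dist_eq_norm]
        rintro i (rfl | rfl)
        · exact h1
        · exact h2
      · obtain ⟨x, y, z, -, -, -, rfl⟩ := Finset.card_eq_three.mp h
        obtain ⟨o, h1, h2, h3⟩ := h3 x y z
        refine ⟨o, ?_⟩
        simp only [Set.mem_iInter, Finset.mem_insert, Finset.mem_singleton, Metric.mem_closedBall,
          dist_eq_norm]
        rintro i (rfl | rfl | rfl)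
        · exact h1
        · exact h2
        · exact h3)
  obtain ⟨o, ho⟩ := hH
  refine ⟨o, fun x hx => ?_⟩
  have := Set.mem_iInter.mp ho ⟨x, hx⟩
  rw [Metric.mem_closedBall, dist_eq_norm] at this
  rw [norm_sub_rev]; exact this


/-- The core: eight sets of constant width cannot touch. -/
theorem core (K : Set E2) (hc : Convex ℝ K) (hk : IsCompact K) (hne : K.Nonempty)
    (w : ℝ) (hw : 0 < w)
    (hwid : ∀ u : E2, ‖u‖ = 1 →
      sSup ((fun x => inner ℝ x u) '' K) - sInf ((fun x => inner ℝ x u) '' K) = w)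
    (f : Fin 8 → (E2 ≃ᵢ E2)) (hf1 : ∀ i, ((f i) '' K ∩ K).Nonempty)
    (hf2 : ∀ i, interior ((f i) '' K) ∩ interior K = ∅)
    (hf3 : ∀ i j, i ≠ j → interior ((f i) '' K) ∩ interior ((f j) '' K) = ∅) : False := by
  obtain ⟨hdiam, hcomp, hanti⟩ := width_facts K hc hk hne w hw hwid
  obtain ⟨o, ho⟩ := jungK K hne w hw hdiam
  have hin : ∀ y, ‖y - o‖ ≤ 0.4226 * w → y ∈ K := by
    intro y hy
    apply hcomp
    intro x hx
    have h1 := ho x hx
    have h2 : y - x = (y - o) - (x - o) := by abel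
    rw [h2]
    refine (norm_sub_le _ _).trans ?_
    linarith
  have hin' : ∀ i y, ‖y - f i o‖ ≤ 0.4226 * w → y ∈ (f i) '' K := by
    intro i y hy
    refine ⟨(f i).symm y, ?_, (f i).apply_symm_apply y⟩
    apply hin
    rw [← dist_eq_norm] at hy ⊢
    rw [← (f i).dist_eq, (f i).apply_symm_apply]
    exact hy
  have hout : ∀ i, ∀ y ∈ (f i) '' K, ‖f i o - y‖ ≤ 0.5774 * w := by
    rintro i _ ⟨x, hx, rfl⟩
    rw [← dist_eq_norm, (f i).dist_eq, dist_comm, dist_eq_norm]
    exact ho x hx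
  have hball : ∀ i, Metric.ball (f i o) (0.4226 * w) ⊆ interior ((f i) '' K) := by
    intro i
    apply interior_maximal _ Metric.isOpen_ball
    intro y hy
    apply hin'
    rw [Metric.mem_ball, dist_eq_norm] at hy
    exact hy.le
  have hKint : K ⊆ closure (interior K) := by
    have hint : (interior K).Nonempty := by
      refine ⟨o, ?_⟩
      have : Metric.ball o (0.4226 * w) ⊆ interior K := by
        apply interior_maximal _ Metric.isOpen_ball
        intro y hy
        apply hin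
        rw [Metric.mem_ball, dist_eq_norm] at hy
        exact hy.le
      apply this
      rw [Metric.mem_ball, dist_self]
      positivity
    rw [hc.closure_interior_eq_closure_of_nonempty_interior hint]
    exact subset_closure
  have hnear : ∀ i, ∃ p ∈ K, (∀ y ∈ K, ‖f i o - p‖ ≤ ‖f i o - y‖) ∧
      ∀ y ∈ K, inner ℝ (y - p) (f i o - p) ≤ 0 := fun i => nearest K hc hk hne (f i o)
  choose p hpK hpmin hpn using hnear
  have hup : ∀ i, ‖f i o - p i‖ ≤ 0.5774 * w := by
    intro i
    obtain ⟨z, hz1, hz2⟩ := hf1 i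
    exact (hpmin i z hz2).trans (hout i z hz1)
  have hlo : ∀ i, 0.4226 * w ≤ ‖f i o - p i‖ := by
    intro i
    by_contra hcon
    push Not at hcon
    have h1 : p i ∈ closure (interior K) := hKint (hpK i)
    rw [_root_.mem_closure_iff] at h1
    obtain ⟨y, hy1, hy2⟩ := h1 (Metric.ball (f i o) (0.4226 * w)) Metric.isOpen_ball (by
      rw [Metric.mem_ball, dist_eq_norm, norm_sub_rev]; exact hcon)
    have : y ∈ interior ((f i) '' K) ∩ interior K := ⟨hball i hy1, hy2⟩
    rw [hf2 i] at this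
    exact this
  have hsep : ∀ i j, i ≠ j → 2 * 0.4226 * w ≤ ‖f i o - f j o‖ := by
    intro i j hij
    by_contra hcon
    push Not at hcon
    set m : E2 := (1 / 2 : ℝ) • (f i o + f j o) with hm
    have h1 : m - f i o = (1 / 2 : ℝ) • (f j o - f i o) := by
      rw [hm, smul_add, smul_sub]
      have : f i o = (1 / 2 : ℝ) • f i o + (1 / 2 : ℝ) • f i o := by
        rw [← add_smul]; norm_num
      nth_rewrite 2 [this]
      abel
    have h2 : m - f j o = (1 / 2 : ℝ) • (f i o - f j o) := by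
      rw [hm, smul_add, smul_sub]
      have : f j o = (1 / 2 : ℝ) • f j o + (1 / 2 : ℝ) • f j o := by
        rw [← add_smul]; norm_num
      nth_rewrite 2 [this]
      abel
    have : m ∈ interior ((f i) '' K) ∩ interior ((f j) '' K) := by
      constructor
      · apply hball
        rw [Metric.mem_ball, dist_eq_norm, h1, norm_smul, norm_sub_rev]
        norm_num
        linarith
      · apply hball
        rw [Metric.mem_ball, dist_eq_norm, h2, norm_smul]
        norm_num
        linarith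
    rw [hf3 i j hij] at this
    exact this
  have hne0 : ∀ i, f i o - p i ≠ 0 := by
    intro i h
    have := hlo i
    rw [h, norm_zero] at this
    have : 0 < 0.4226 * w := by positivity
    linarith
  set u : Fin 8 → E2 := fun i => (‖f i o - p i‖⁻¹ : ℝ) • (f i o - p i) with hu
  have hu1 : ∀ i, ‖u i‖ = 1 := fun i => unitize _ (hne0 i)
  have hfu : ∀ i, f i o - p i = ‖f i o - p i‖ • u i := by
    intro i
    rw [hu]
    simp only
    rw [smul_smul, mul_inv_cancel₀ (norm_ne_zero_iff.mpr (hne0 i)), one_smul]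
  have hun : ∀ i, ∀ y ∈ K, inner ℝ (y - p i) (u i) ≤ 0 := by
    intro i y hy
    rw [hu]
    simp only
    rw [real_inner_smul_right]
    exact mul_nonpos_of_nonneg_of_nonpos (by positivity) (hpn i y hy)
  have ha := fun i => hanti (p i) (hpK i) (u i) (hu1 i) (hun i)
  set q : Fin 8 → E2 := fun i => (w⁻¹ : ℝ) • p i with hq
  have hwne : w ≠ 0 := hw.ne'
  -- the two curvature inequalities
  have hcurv : ∀ i j, ‖q i - q j‖ ^ 2 ≤ 2 * inner ℝ (q i - q j) (u i) := by
    intro i j
    have h1 := hdiam (p i - w • u i) (ha i) (p j) (hpK j)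
    have h2 : ‖(q i - q j) - u i‖ ≤ 1 := by
      have : (q i - q j) - u i = (w⁻¹ : ℝ) • (p i - w • u i - p j) := by
        rw [hq]
        simp only
        rw [smul_sub, smul_sub, smul_smul, inv_mul_cancel₀ hwne, one_smul]
        abel
      rw [this, norm_smul, norm_inv, Real.norm_eq_abs, abs_of_pos hw]
      rw [inv_mul_le_iff₀ hw, mul_one]
      exact h1
    have h3 : ‖(q i - q j) - u i‖ ^ 2 ≤ 1 := by
      have := pow_le_pow_left₀ (norm_nonneg _) h2 2
      simpa using this
    rw [@norm_sub_sq_real, hu1 i] at h3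
    linarith
  have hcurv' : ∀ i j, ‖q i - q j‖ ^ 2 ≤ - (2 * inner ℝ (q i - q j) (u j)) := by
    intro i j
    have h := hcurv j i
    rw [norm_sub_rev] at h
    have e : inner ℝ (q j - q i) (u j) = - inner ℝ (q i - q j) (u j) := by
      rw [← inner_neg_left]; congr 1; abel
    rw [e] at h
    linarith
  have hqd : ∀ i j, ‖q i - q j‖ ≤ 1 := by
    intro i j
    have : q i - q j = (w⁻¹ : ℝ) • (p i - p j) := by rw [hq]; simp only; rw [smul_sub]
    rw [this, norm_smul, norm_inv, Real.norm_eq_abs, abs_of_pos hw, inv_mul_le_iff₀ hw, mul_one]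
    exact hdiam _ (hpK i) _ (hpK j)
  set a : Fin 8 → ℝ := fun i => w⁻¹ * ‖f i o - p i‖ with hadef
  have haup : ∀ i, a i ≤ 0.5774 := by
    intro i
    rw [hadef]; simp only
    rw [inv_mul_le_iff₀ hw]
    linarith [hup i]
  have halo : ∀ i, 0.4226 ≤ a i := by
    intro i
    rw [hadef]; simp only
    rw [le_inv_mul_iff₀ hw]
    linarith [hlo i]
  have hsep' : ∀ i j, i ≠ j → 2 * 0.4226 ≤ ‖(q i - q j) + a i • u i - a j • u j‖ := by
    intro i j hij
    have h1 := hsep i j hij
    have : (q i - q j) + a i • u i - a j • u j = (w⁻¹ : ℝ) • (f i o - f j o) := by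
      have e1 : f i o = p i + ‖f i o - p i‖ • u i := by rw [← hfu i]; abel
      have e2 : f j o = p j + ‖f j o - p j‖ • u j := by rw [← hfu j]; abel
      have e3 : (w⁻¹ : ℝ) • (f i o) = q i + a i • u i := by
        conv_lhs => rw [e1]
        rw [smul_add, smul_smul]
      have e4 : (w⁻¹ : ℝ) • (f j o) = q j + a j • u j := by
        conv_lhs => rw [e2]
        rw [smul_add, smul_smul]
      rw [smul_sub, e3, e4]
      abel
    rw [this, norm_smul, norm_inv, Real.norm_eq_abs, abs_of_pos hw, le_inv_mul_iff₀ hw]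
    linarith
  set X : Fin 8 → E2 := fun i => q i + (0.5774 : ℝ) • u i with hX
  have hXsep : ∀ i j, i ≠ j → 2 * 0.4226 ≤ ‖X i - X j‖ := by
    intro i j hij
    have := push (q i - q j) (u i) (u j) (a i) (a j) 0.4226 0.5774 (hu1 i) (hu1 j)
      (hcurv i j) (hcurv' i j) rfl rfl (halo i) (haup i) (halo j) (haup j) (hsep' i j hij)
    refine this.trans (le_of_eq ?_)
    congr 1
    rw [hX]; simp only; abel
  have hXd : ∀ i j, ‖X i - X j‖ ≤ 2.1548 := by
    intro i j
    have : X i - X j = (q i - q j) + (0.5774 : ℝ) • u i - (0.5774 : ℝ) • u j := by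
      rw [hX]; simp only; abel
    rw [this]
    refine (norm_sub_le _ _).trans ?_
    have h1 := norm_add_le (q i - q j) ((0.5774 : ℝ) • u i)
    have h2 := hqd i j
    rw [norm_smul, hu1 i] at h1
    rw [norm_smul, hu1 j]
    norm_num at h1 ⊢
    linarith
  have hXn : ∀ i j, inner ℝ (u i) (X j - X i) ≤ 0 := by
    intro i j
    have : X j - X i = (w⁻¹ : ℝ) • (p j - p i) + (0.5774 : ℝ) • (u j - u i) := by
      rw [hX, hq]; simp only; rw [smul_sub, smul_sub]; abel
    rw [this, inner_add_right, real_inner_smul_right, real_inner_smul_right]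
    have h1 : inner ℝ (u i) (p j - p i) ≤ 0 := by
      rw [real_inner_comm]; exact hun i (p j) (hpK j)
    have h2 : inner ℝ (u i) (u j - u i) ≤ 0 := by
      rw [inner_sub_right, real_inner_self_eq_norm_sq, hu1 i]
      have := real_inner_le_norm (u i) (u j)
      rw [hu1 i, hu1 j] at this
      linarith
    have h3 : 0 ≤ w⁻¹ := by positivity
    have h4 := mul_nonpos_of_nonneg_of_nonpos h3 h1
    have h5 : (0.5774 : ℝ) * inner ℝ (u i) (u j - u i) ≤ 0 :=
      mul_nonpos_of_nonneg_of_nonpos (by norm_num) h2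
    linarith
  have hXinj : Function.Injective X := by
    intro i j hij
    by_contra hne'
    have := hXsep i j hne'
    rw [hij, sub_self, norm_zero] at this
    norm_num at this
  have huinj : Function.Injective u := by
    intro i j hij
    by_contra hne'
    have h1 := hcurv i j
    have h2 := hcurv' i j
    rw [← hij] at h2
    have h3 : ‖q i - q j‖ ^ 2 ≤ 0 := by linarith
    have h4 : q i - q j = 0 := by
      rw [← norm_eq_zero]
      exact pow_eq_zero_iff (two_ne_zero) |>.mp (le_antisymm h3 (sq_nonneg _))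
    have h5 := hXsep i j hne'
    have : X i - X j = 0 := by
      have e : X i - X j = (q i - q j) + ((0.5774 : ℝ) • u i - (0.5774 : ℝ) • u j) := by
        rw [hX]; simp only; abel
      rw [e, h4, hij]; simp
    rw [this, norm_zero] at h5
    norm_num at h5
  set φ : E2 ≃ₗᵢ[ℝ] ℂ := Complex.orthonormalBasisOneI.repr.symm with hφ
  have hfin := octagon (fun i => φ (X i)) (fun i => φ (u i)) (fun i => by
      rw [φ.norm_map]; exact hu1 i) (φ.injective.comp huinj) (φ.injective.comp hXinj) (by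
      intro i j
      have := hXn i j
      rw [← φ.inner_map_map, Complex.inner, map_sub] at this
      exact this) 2.1548 (2 * 0.4226) (by
      intro i j
      rw [← map_sub, φ.norm_map]
      exact hXd i j) (by
      intro i j hij
      rw [← map_sub, φ.norm_map]
      exact hXsep i j hij)
  have := sin_bound
  nlinarith

end Pool.Agent.W94.KN
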