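import Pool.Agent.W94.KN.Trig

set_option autoImplicit false

open Finset Real

namespace Pool.Agent.W94.KN

/-- polar form of a nonzero vector relative to a turned frame -/
theorem polar_frame (e : ℂ) (T T' : ℝ) (hT : T < T')
    (h1 : (e * (starRingEnd ℂ) (Complex.exp (T * Complex.I))).re ≤ 0)
    (h2 : 0 ≤ (e * (starRingEnd ℂ) (Complex.exp (T' * Complex.I))).re) (he : e ≠ 0) :
    ∃ a : ℝ, T + π / 2 ≤ a ∧ a ≤ T' + π / 2 ∧ e = ‖e‖ * Complex.exp (a * Complex.I) := by
  set z : ℂ := e * Complex.exp (-((T + π / 2 : ℝ) * Complex.I)) with hz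
  have hzn : ‖z‖ = ‖e‖ := by
    rw [hz, norm_mul]
    have h := Complex.norm_exp_ofReal_mul_I (-(T + π / 2))
    have : ‖Complex.exp (-((T + π / 2 : ℝ) * Complex.I))‖ = 1 := by
      rw [← h]; congr 2; push_cast; ring
    rw [this, mul_one]
  have hez : e = z * Complex.exp ((T + π / 2 : ℝ) * Complex.I) := by
    rw [hz, mul_assoc, ← Complex.exp_add]
    simp
  have hz1 := Complex.norm_mul_exp_arg_mul_I z
  set η := Complex.arg z with hη
  have hz2 : e = ‖e‖ * Complex.exp (((T + π / 2 + η : ℝ)) * Complex.I) := by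
    rw [hez, ← hz1, hzn]
    rw [mul_assoc, ← Complex.exp_add]
    have : ‖(‖e‖ : ℂ) * Complex.exp ((η * Complex.I + (T + π / 2 : ℝ) * Complex.I))‖ = ‖e‖ := by
      rw [norm_mul]
      have h := Complex.norm_exp_ofReal_mul_I (η + (T + π / 2))
      have h' : ‖Complex.exp ((η * Complex.I + (T + π / 2 : ℝ) * Complex.I))‖ = 1 := by
        rw [← h]; congr 2; push_cast; ring
      rw [h', mul_one]
      simp
    rw [this]
    congr 2
    push_cast; ring
  have hconj : ∀ S : ℝ, (e * (starRingEnd ℂ) (Complex.exp (S * Complex.I))).re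
      = ‖e‖ * cos (T + π / 2 + η - S) := by
    intro S
    have hc : (starRingEnd ℂ) (Complex.exp (S * Complex.I)) = Complex.exp (((-S : ℝ)) * Complex.I) := by
      rw [← Complex.exp_conj]; simp
    rw [hc]
    conv_lhs => rw [hz2]
    rw [mul_assoc, ← Complex.exp_add, Complex.re_ofReal_mul]
    have : (((T + π / 2 + η : ℝ)) * Complex.I + ((-S : ℝ)) * Complex.I : ℂ)
        = ((T + π / 2 + η - S : ℝ) : ℂ) * Complex.I := by push_cast; ring
    rw [this, Complex.exp_ofReal_mul_I_re]
  have hpos : 0 < ‖e‖ := norm_pos_iff.mpr he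
  rw [hconj] at h1 h2
  have h1' : 0 ≤ sin η := by
    have e1 : T + π / 2 + η - T = η + π / 2 := by ring
    rw [e1, cos_add_pi_div_two] at h1
    nlinarith
  have h2' : sin (η - (T' - T)) ≤ 0 := by
    have e1 : T + π / 2 + η - T' = (η - (T' - T)) + π / 2 := by ring
    rw [e1, cos_add_pi_div_two] at h2
    nlinarith
  have hη1 : -π < η := Complex.neg_pi_lt_arg z
  have hη2 : η ≤ π := Complex.arg_le_pi z
  have hη0 : 0 ≤ η := by
    by_contra hcon
    push Not at hcon
    have := sin_neg_of_neg_of_neg_pi_lt hcon hη1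
    linarith
  refine ⟨T + π / 2 + η, by linarith, ?_, hz2⟩
  by_contra hcon
  push Not at hcon
  have := sin_pos_of_pos_of_lt_pi (x := η - (T' - T)) (by linarith) (by linarith)
  linarith

/-- eight points with distinct outer normals on the boundary of a planar set of diameter
at most `W` are not too far apart -/
theorem octagon (x u : Fin 8 → ℂ) (hu : ∀ i, ‖u i‖ = 1) (hinj : Function.Injective u)
    (hxi : Function.Injective x)
    (hn : ∀ i j, ((x j - x i) * (starRingEnd ℂ) (u i)).re ≤ 0) (W c : ℝ)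
    (hW : ∀ i j, ‖x i - x j‖ ≤ W) (hc : ∀ i j, i ≠ j → c ≤ ‖x i - x j‖) :
    8 * c ≤ 16 * sin (π / 16) * W := by
  set θ : Fin 8 → ℝ := fun i => Complex.arg (u i) with hθ
  have huθ : ∀ i, u i = Complex.exp (θ i * Complex.I) := by
    intro i
    have := Complex.norm_mul_exp_arg_mul_I (u i)
    rw [hu i] at this
    simpa using this.symm
  have hθinj : Function.Injective θ := by
    intro i j hij
    apply hinj
    rw [huθ i, huθ j, hij]
  set σ := Tuple.sort θ with hσ
  have hs : Monotone (θ ∘ σ) := Tuple.monotone_sort θ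
  have hss : StrictMono (θ ∘ σ) := hs.strictMono_of_injective (hθinj.comp σ.injective)
  set T : ℕ → ℝ := fun k => if h : k < 8 then θ (σ ⟨k, h⟩) else θ (σ 0) + 2 * π with hT
  set X : ℕ → ℂ := fun k => if h : k < 8 then x (σ ⟨k, h⟩) else x (σ 0) with hX
  have hTlt : ∀ k (h : k < 8), T k = θ (σ ⟨k, h⟩) := by
    intro k h; simp only [hT, h, dif_pos]
  have hXlt : ∀ k (h : k < 8), X k = x (σ ⟨k, h⟩) := by
    intro k h; simp only [hX, h, dif_pos]
  have hT8 : T 8 = T 0 + 2 * π := by
    rw [hTlt 0 (by norm_num)]; simp [hT]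
  have hX8 : X 8 = X 0 := by
    rw [hXlt 0 (by norm_num)]; simp [hX]
  have hTs : ∀ k < 8, T k < T (k + 1) := by
    intro k hk
    rcases Nat.lt_or_ge (k + 1) 8 with h | h
    · rw [hTlt k hk, hTlt (k + 1) h]
      exact hss (Fin.mk_lt_mk.mpr (Nat.lt_succ_self k))
    · have hk7 : k + 1 = 8 := by omega
      rw [hk7, hT8, hTlt k hk, hTlt 0 (by norm_num)]
      have h1 : θ (σ ⟨k, hk⟩) ≤ π := Complex.arg_le_pi _
      have h2 : -π < θ (σ ⟨0, by norm_num⟩) := Complex.neg_pi_lt_arg _
      linarith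
  have hidx : ∀ k ≤ 8, ∃ i : Fin 8, X k = x i ∧ Complex.exp (T k * Complex.I) = u i := by
    intro k hk
    rcases Nat.lt_or_ge k 8 with h | h
    · refine ⟨σ ⟨k, h⟩, hXlt k h, ?_⟩
      rw [hTlt k h, ← huθ]
    · have hk8 : k = 8 := by omega
      refine ⟨σ ⟨0, by norm_num⟩, ?_, ?_⟩
      · rw [hk8, hX8, hXlt 0 (by norm_num)]
      · rw [hk8, hT8, hTlt 0 (by norm_num), huθ]
        push_cast
        rw [add_mul, Complex.exp_add, Complex.exp_two_pi_mul_I, mul_one]
  have hne : ∀ k < 8, ∃ i j : Fin 8, i ≠ j ∧ X (k + 1) = x i ∧ X k = x j := by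
    intro k hk
    rcases Nat.lt_or_ge (k + 1) 8 with h | h
    · refine ⟨σ ⟨k + 1, h⟩, σ ⟨k, hk⟩, ?_, hXlt _ h, hXlt _ hk⟩
      intro hcon
      have := σ.injective hcon
      simp [Fin.ext_iff] at this
    · have hk7 : k = 7 := by omega
      subst hk7
      refine ⟨σ ⟨0, by norm_num⟩, σ ⟨7, by norm_num⟩, ?_, ?_, hXlt _ _⟩
      · intro hcon
        have := σ.injective hcon
        simp [Fin.ext_iff] at this
      · rw [show 7 + 1 = 8 from rfl, hX8]
        exact hXlt 0 (by norm_num)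
  have hex : ∀ k, ∃ a : ℝ, k < 8 → (T k + π / 2 ≤ a ∧ a ≤ T (k + 1) + π / 2 ∧
      X (k + 1) - X k = ‖X (k + 1) - X k‖ * Complex.exp (a * Complex.I)) := by
    intro k
    by_cases hk : k < 8
    · obtain ⟨i, hi1, hi2⟩ := hidx k hk.le
      obtain ⟨j, hj1, hj2⟩ := hidx (k + 1) hk
      have h1 : ((X (k + 1) - X k) * (starRingEnd ℂ) (Complex.exp (T k * Complex.I))).re ≤ 0 := by
        rw [hi1, hi2, hj1]
        exact hn i j
      have h2 : 0 ≤ ((X (k + 1) - X k) *
          (starRingEnd ℂ) (Complex.exp (T (k + 1) * Complex.I))).re := by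
        rw [hi1, hj1, hj2]
        have := hn j i
        have e : (x j - x i) * (starRingEnd ℂ) (u j) = -((x i - x j) * (starRingEnd ℂ) (u j)) := by
          ring
        rw [e, Complex.neg_re]
        linarith
      have h3 : X (k + 1) - X k ≠ 0 := by
        obtain ⟨i', j', hij, h4, h5⟩ := hne k hk
        rw [h4, h5, sub_ne_zero]
        exact fun hcon => hij (hxi hcon)
      obtain ⟨a, ha⟩ := polar_frame _ _ _ (hTs k hk) h1 h2 h3
      exact ⟨a, fun _ => ha⟩
    · exact ⟨0, fun h => absurd h hk⟩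
  choose a ha using hex
  have hstep : ∀ k, k + 1 < 8 → a k ≤ a (k + 1) := by
    intro k hk
    have h1 := ha k (by omega)
    have h2 := ha (k + 1) hk
    linarith [h1.2.1, h2.1]
  have hmono : ∀ i j, i ≤ j → j < 8 → a i ≤ a j := by
    intro i j hij
    induction j, hij using Nat.le_induction with
    | base => intro _; exact le_rfl
    | succ n hn ih =>
      intro h
      exact (ih (by omega)).trans (hstep n h)
  have ha8 : ∀ j < 8, a j ≤ a 0 + 2 * π := by
    intro j hj
    have h1 := hmono j 7 (by omega) (by norm_num)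
    have h2 := (ha 7 (by norm_num)).2.1
    have h3 := (ha 0 (by norm_num)).1
    rw [show 7 + 1 = 8 from rfl, hT8] at h2
    linarith
  have hR := reinhardt8 X (fun k => ‖X (k + 1) - X k‖) a W (fun j _ => norm_nonneg _)
    (fun j hj => (ha j (Finset.mem_range.mp hj)).2.2) hX8 hmono ha8 (by
      intro i hi j hj
      obtain ⟨i', hi', -⟩ := hidx i hi
      obtain ⟨j', hj', -⟩ := hidx j hj
      rw [hi', hj']
      exact hW _ _)
  have hlow : ∑ j ∈ range 8, c ≤ ∑ j ∈ range 8, ‖X (j + 1) - X j‖ := by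
    apply Finset.sum_le_sum
    intro k hk
    obtain ⟨i', j', hij, h4, h5⟩ := hne k (Finset.mem_range.mp hk)
    rw [h4, h5]
    exact hc _ _ hij
  rw [Finset.sum_const, Finset.card_range, nsmul_eq_mul] at hlow
  push_cast at hlow
  exact hlow.trans hR

theorem sin_bound : sin (π / 16) < 0.1951 := by
  rw [sin_pi_div_sixteen]
  have h2 : (1.4142 : ℝ) ≤ √2 := by
    apply Real.le_sqrt_of_sq_le; norm_num
  have h3 : (1.84775 : ℝ) ≤ √(2 + √2) := by
    apply Real.le_sqrt_of_sq_le; nlinarith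
  have h4 : √(2 - √(2 + √2)) < 0.3902 := by
    rw [Real.sqrt_lt' (by norm_num)]
    nlinarith
  linarith

end Pool.Agent.W94.KN
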