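import Mathlib

set_option autoImplicit false

open Finset Real

namespace Pool.Agent.W94.KN

theorem jensen8 (g : ℕ → ℝ) (h0 : ∀ k ∈ range 8, 0 ≤ g k) (hs : ∑ k ∈ range 8, g k = π) :
    ∑ k ∈ range 8, sin (g k / 2) ≤ 8 * sin (π / 16) := by
  have hle : ∀ k ∈ range 8, g k ≤ π := by
    intro k hk
    rw [← hs]
    exact Finset.single_le_sum (f := g) h0 hk
  have h := strictConcaveOn_sin_Icc.concaveOn.le_map_sum (t := range 8) (w := fun _ => (1 / 8 : ℝ))
    (p := fun k => g k / 2) (by intros; norm_num) (by simp) (by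
      intro k hk
      constructor
      · have := h0 k hk; positivity
      · have := hle k hk; have := pi_pos; linarith)
  simp only [smul_eq_mul] at h
  rw [← Finset.mul_sum, ← Finset.mul_sum, ← Finset.sum_div, hs] at h
  have e : 1 / 8 * (π / 2) = π / 16 := by ring
  rw [e] at h
  linarith

theorem tele (h : ℕ → ℝ) (m : ℕ) (hm : m ≤ 8) :
    |h m - h 0| + |h 8 - h m| ≤ ∑ k ∈ range 8, |h (k + 1) - h k| := by
  have e1 : ∑ k ∈ range 8, |h (k + 1) - h k| = ∑ k ∈ range m, |h (k + 1) - h k|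
      + ∑ k ∈ Ico m 8, |h (k + 1) - h k| := (Finset.sum_range_add_sum_Ico _ hm).symm
  rw [e1]
  have a1 : |h m - h 0| ≤ ∑ k ∈ range m, |h (k + 1) - h k| := by
    rw [← Finset.sum_range_sub]
    exact Finset.abs_sum_le_sum_abs _ _
  have a2 : |h 8 - h m| ≤ ∑ k ∈ Ico m 8, |h (k + 1) - h k| := by
    have : h 8 - h m = ∑ k ∈ Ico m 8, (h (k + 1) - h k) := by
      rw [Finset.sum_Ico_eq_sub _ hm, Finset.sum_range_sub, Finset.sum_range_sub]; ring
    rw [this]
    exact Finset.abs_sum_le_sum_abs _ _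
  linarith


/-- the key estimate for one direction, normalised position of the direction -/
theorem wsum0 (x : ℕ → ℂ) (l a : ℕ → ℝ) (W : ℝ) (hl : ∀ j ∈ range 8, 0 ≤ l j)
    (he : ∀ j ∈ range 8, x (j + 1) - x j = l j * Complex.exp (a j * Complex.I)) (hx : x 8 = x 0)
    (hmono : ∀ i j, i ≤ j → j < 8 → a i ≤ a j) (ha8 : ∀ j < 8, a j ≤ a 0 + 2 * π)
    (hW : ∀ i ≤ 8, ∀ j ≤ 8, ‖x i - x j‖ ≤ W) (ω : ℝ) (h1 : -(π / 2) < a 0 - ω)
    (h2 : a 0 - ω ≤ π / 2) :
    ∑ j ∈ range 8, l j * |cos (a j - ω)| ≤ 2 * W := by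
  have hre : ∀ j ∈ range 8, l j * cos (a j - ω)
      = ((x (j + 1) - x j) * Complex.exp (-(ω * Complex.I))).re := by
    intro j hj
    rw [he j hj, mul_assoc, ← Complex.exp_add]
    have : (a j * Complex.I + -(ω * Complex.I) : ℂ) = ((a j - ω : ℝ) : ℂ) * Complex.I := by
      push_cast; ring
    rw [this, Complex.re_ofReal_mul, Complex.exp_ofReal_mul_I_re]
  have hblock : ∀ i k, i ≤ k → k ≤ 8 → ∑ j ∈ Ico i k, l j * cos (a j - ω)
      = ((x k - x i) * Complex.exp (-(ω * Complex.I))).re := by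
    intro i k hik hk
    have : ∑ j ∈ Ico i k, l j * cos (a j - ω)
        = ∑ j ∈ Ico i k, ((x (j + 1) - x j) * Complex.exp (-(ω * Complex.I))).re := by
      apply Finset.sum_congr rfl
      intro j hj
      apply hre
      rw [Finset.mem_Ico] at hj
      rw [Finset.mem_range]; omega
    rw [this, ← Complex.re_sum, ← Finset.sum_mul, Finset.sum_Ico_eq_sub _ hik,
      Finset.sum_range_sub, Finset.sum_range_sub]
    congr 2
    ring
  have hall : ∑ j ∈ range 8, l j * cos (a j - ω) = 0 := by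
    have := hblock 0 8 (by norm_num) le_rfl
    rw [hx] at this
    simpa using this
  have hnb : ∀ i ≤ 8, ∀ k ≤ 8, |((x k - x i) * Complex.exp (-(ω * Complex.I))).re| ≤ W := by
    intro i hi k hk
    refine (Complex.abs_re_le_norm _).trans ?_
    rw [norm_mul]
    have : ‖Complex.exp (-(ω * Complex.I))‖ = 1 := by
      have h := Complex.norm_exp_ofReal_mul_I (-ω)
      rw [← h]; congr 2; push_cast; ring
    rw [this, mul_one]
    exact hW k hk i hi
  have hW0 : 0 ≤ W := le_trans (norm_nonneg _) (hW 0 (by norm_num) 0 (by norm_num))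
  set B := (range 8).filter (fun j => cos (a j - ω) < 0) with hB
  have habs : ∑ j ∈ range 8, l j * |cos (a j - ω)|
      = ∑ j ∈ range 8, l j * cos (a j - ω) - 2 * ∑ j ∈ B, l j * cos (a j - ω) := by
    rw [hB, Finset.sum_filter, Finset.mul_sum, ← Finset.sum_sub_distrib]
    apply Finset.sum_congr rfl
    intro j _
    split_ifs with h
    · rw [abs_of_neg h]; ring
    · rw [abs_of_nonneg (not_lt.mp h)]; ring
  rw [habs, hall]
  rcases B.eq_empty_or_nonempty with hBe | hBn
  · rw [hBe]; simp; exact hW0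
  have hmem : ∀ j ∈ B, π / 2 < a j - ω ∧ a j - ω < 3 * π / 2 := by
    intro j hj
    rw [hB, Finset.mem_filter, Finset.mem_range] at hj
    obtain ⟨hj8, hneg⟩ := hj
    have h3 := hmono 0 j (Nat.zero_le _) hj8
    have h4 := ha8 j hj8
    constructor
    · by_contra hcon
      have := cos_nonneg_of_neg_pi_div_two_le_of_le (x := a j - ω) (by linarith) (by linarith)
      linarith
    · by_contra hcon
      have := cos_nonneg_of_neg_pi_div_two_le_of_le (x := a j - ω - 2 * π)
        (by linarith [pi_pos]) (by linarith [pi_pos])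
      rw [cos_sub_two_pi] at this
      linarith
  have hconv : B = Ico (B.min' hBn) (B.max' hBn + 1) := by
    ext j
    rw [Finset.mem_Ico]
    constructor
    · intro hj
      exact ⟨B.min'_le j hj, Nat.lt_succ_of_le (B.le_max' j hj)⟩
    · rintro ⟨h3, h4⟩
      have hm := B.min'_mem hBn
      have hM := B.max'_mem hBn
      have hM8 : B.max' hBn < 8 := by
        have := (Finset.mem_filter.mp hM).1
        exact Finset.mem_range.mp this
      have h5 := hmem _ hm
      have h6 := hmem _ hM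
      have h7 := hmono _ _ h3 (by omega)
      have h8 := hmono j (B.max' hBn) (by omega) hM8
      rw [hB, Finset.mem_filter, Finset.mem_range]
      refine ⟨by omega, ?_⟩
      exact cos_neg_of_pi_div_two_lt_of_lt (by linarith) (by linarith)
  have hM8 : B.max' hBn < 8 := by
    have := (Finset.mem_filter.mp (B.max'_mem hBn)).1
    exact Finset.mem_range.mp this
  have hmM : B.min' hBn ≤ B.max' hBn := B.min'_le _ (B.max'_mem hBn)
  rw [hconv, hblock _ _ (by omega) (by omega)]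
  have := (abs_le.mp (hnb (B.min' hBn) (by omega) (B.max' hBn + 1) (by omega))).1
  linarith

theorem abs_cos_sub_int_mul_pi (y : ℝ) (n : ℤ) : |cos (y - n * π)| = |cos y| := by
  rw [cos_sub_int_mul_pi, abs_mul, abs_zpow]
  simp

theorem wsum (x : ℕ → ℂ) (l a : ℕ → ℝ) (W : ℝ) (hl : ∀ j ∈ range 8, 0 ≤ l j)
    (he : ∀ j ∈ range 8, x (j + 1) - x j = l j * Complex.exp (a j * Complex.I)) (hx : x 8 = x 0)
    (hmono : ∀ i j, i ≤ j → j < 8 → a i ≤ a j) (ha8 : ∀ j < 8, a j ≤ a 0 + 2 * π)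
    (hW : ∀ i ≤ 8, ∀ j ≤ 8, ‖x i - x j‖ ≤ W) (ω : ℝ) :
    ∑ j ∈ range 8, l j * |cos (a j - ω)| ≤ 2 * W := by
  obtain ⟨n, hn, -⟩ := existsUnique_sub_zsmul_mem_Ico pi_pos ω (a 0 - π / 2)
  simp only [zsmul_eq_mul, Set.mem_Ico] at hn
  have h := wsum0 x l a W hl he hx hmono ha8 hW (ω - n * π) (by linarith) (by linarith)
  refine le_trans (le_of_eq ?_) h
  apply Finset.sum_congr rfl
  intro j _
  have : a j - (ω - n * π) = (a j - ω) - ((-n : ℤ) : ℝ) * π := by push_cast; ring
  rw [this, abs_cos_sub_int_mul_pi]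


theorem chord_sum (β : ℕ → ℝ) (h8 : β 8 = β 0 + π) (hmono : ∀ k ∈ range 8, β k ≤ β (k + 1))
    (hmono2 : β 8 ≤ β 0 + π) (m : ℕ) (hm : m < 8) :
    2 ≤ ∑ k ∈ range 8, 2 * sin ((β (k + 1) - β k) / 2) *
      |cos (β m - ((β k + β (k + 1)) / 2 + π / 2))| := by
  have key : ∀ k ∈ range 8, 2 * sin ((β (k + 1) - β k) / 2) *
      |cos (β m - ((β k + β (k + 1)) / 2 + π / 2))|
      = |cos (β (k + 1) - β m) - cos (β k - β m)| := by
    intro k hk
    rw [cos_sub_cos, abs_mul, abs_mul]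
    have e1 : (β (k + 1) - β m + (β k - β m)) / 2 = -(β m - (β k + β (k + 1)) / 2) := by ring
    have e2 : (β (k + 1) - β m - (β k - β m)) / 2 = (β (k + 1) - β k) / 2 := by ring
    have e3 : β m - ((β k + β (k + 1)) / 2 + π / 2) = (β m - (β k + β (k + 1)) / 2) - π / 2 := by
      ring
    rw [e1, e2, e3, cos_sub_pi_div_two, sin_neg, abs_neg]
    have hs : ∑ j ∈ range 8, (β (j + 1) - β j) = π := by
      rw [Finset.sum_range_sub, h8]; ring
    have hle : β (k + 1) - β k ≤ π := by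
      rw [← hs]
      exact Finset.single_le_sum (f := fun j => β (j + 1) - β j)
        (fun j hj => by have := hmono j hj; linarith) hk
    have hge := hmono k hk
    rw [abs_of_nonneg (sin_nonneg_of_nonneg_of_le_pi (by linarith) (by linarith [pi_pos])
      : 0 ≤ sin ((β (k + 1) - β k) / 2))]
    norm_num
    ring
  rw [Finset.sum_congr rfl key]
  have ht := tele (fun k => cos (β k - β m)) m hm.le
  refine le_trans ?_ ht
  have e : cos (β 8 - β m) = - cos (β 0 - β m) := by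
    rw [h8, show β 0 + π - β m = (β 0 - β m) + π by ring, cos_add_pi]
  simp only [sub_self, cos_zero, e]
  have h1 := cos_le_one (β 0 - β m)
  have h2 := neg_one_le_cos (β 0 - β m)
  rw [abs_of_nonneg (by linarith), abs_of_nonpos (by linarith)]
  linarith

/-- a version of the perimeter bound of Reinhardt for closed convex octagons -/
theorem reinhardt8 (x : ℕ → ℂ) (l a : ℕ → ℝ) (W : ℝ) (hl : ∀ j ∈ range 8, 0 ≤ l j)
    (he : ∀ j ∈ range 8, x (j + 1) - x j = l j * Complex.exp (a j * Complex.I)) (hx : x 8 = x 0)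
    (hmono : ∀ i j, i ≤ j → j < 8 → a i ≤ a j) (ha8 : ∀ j < 8, a j ≤ a 0 + 2 * π)
    (hW : ∀ i ≤ 8, ∀ j ≤ 8, ‖x i - x j‖ ≤ W) :
    ∑ j ∈ range 8, l j ≤ 16 * sin (π / 16) * W := by
  have hex : ∀ j : Fin 8, ∃ b : ℝ, b ∈ Set.Ico 0 π ∧ ∃ n : ℤ, b = a j - n * π := by
    intro j
    obtain ⟨n, hn, -⟩ := existsUnique_sub_zsmul_mem_Ico pi_pos (a j) 0
    simp only [zsmul_eq_mul, zero_add] at hn
    exact ⟨_, hn, n, rfl⟩
  choose b hb0 n hbn using hex
  set σ := Tuple.sort b with hσ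
  have hs : Monotone (b ∘ σ) := Tuple.monotone_sort b
  set β : ℕ → ℝ := fun k => if h : k < 8 then b (σ ⟨k, h⟩) else b (σ 0) + π with hβ
  have hβlt : ∀ k (h : k < 8), β k = b (σ ⟨k, h⟩) := by
    intro k h; simp only [hβ, h, dif_pos]
  have h8 : β 8 = β 0 + π := by
    rw [hβlt 0 (by norm_num)]
    simp [hβ]
  have hmonoβ : ∀ k ∈ range 8, β k ≤ β (k + 1) := by
    intro k hk
    rw [Finset.mem_range] at hk
    rcases Nat.lt_or_ge (k + 1) 8 with h | h
    · rw [hβlt k hk, hβlt (k + 1) h]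
      exact hs (Fin.mk_le_mk.mpr (Nat.le_succ k))
    · have hk7 : k + 1 = 8 := by omega
      rw [hk7, h8, hβlt k hk, hβlt 0 (by norm_num)]
      have h1 := (hb0 (σ ⟨k, hk⟩)).2
      have h2 := (hb0 (σ ⟨0, by norm_num⟩)).1
      linarith
  set g : ℕ → ℝ := fun k => β (k + 1) - β k with hg
  have hg0 : ∀ k ∈ range 8, 0 ≤ g k := fun k hk => by
    have := hmonoβ k hk
    simp only [hg]; linarith
  have hgs : ∑ k ∈ range 8, g k = π := by
    simp only [hg]
    rw [Finset.sum_range_sub, h8]; ring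
  have hjen := jensen8 g hg0 hgs
  have hsin0 : ∀ k ∈ range 8, 0 ≤ sin (g k / 2) := by
    intro k hk
    have h1 : g k ≤ π := by
      rw [← hgs]; exact Finset.single_le_sum (f := g) hg0 hk
    have h2 := hg0 k hk
    exact sin_nonneg_of_nonneg_of_le_pi (by linarith) (by linarith [pi_pos])
  set ω : ℕ → ℝ := fun k => (β k + β (k + 1)) / 2 + π / 2 with hω
  have hlow : ∀ j ∈ range 8, 2 ≤ ∑ k ∈ range 8, 2 * sin (g k / 2) * |cos (a j - ω k)| := by
    intro j hj
    rw [Finset.mem_range] at hj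
    set m := (σ.symm ⟨j, hj⟩) with hm
    have hβm : β m = b ⟨j, hj⟩ := by
      rw [hβlt m m.2]
      congr 1
      simp [hm]
    have h := chord_sum β h8 hmonoβ h8.le m m.2
    refine h.trans (le_of_eq ?_)
    apply Finset.sum_congr rfl
    intro k _
    have e : β m - ω k = (a j - ω k) - (n ⟨j, hj⟩ : ℝ) * π := by
      rw [hβm, hbn]; ring
    have e2 : |cos (β m - ω k)| = |cos (a j - ω k)| := by
      rw [e, abs_cos_sub_int_mul_pi]
    simp only [hω, hg] at e2 ⊢
    rw [e2]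
  have hup : ∀ k ∈ range 8, ∑ j ∈ range 8, l j * |cos (a j - ω k)| ≤ 2 * W := by
    intro k _
    exact wsum x l a W hl he hx hmono ha8 hW (ω k)
  have hW0 : 0 ≤ W := le_trans (norm_nonneg _) (hW 0 (by norm_num) 0 (by norm_num))
  have h1 : 2 * ∑ j ∈ range 8, l j ≤ ∑ j ∈ range 8, l j *
      ∑ k ∈ range 8, 2 * sin (g k / 2) * |cos (a j - ω k)| := by
    rw [Finset.mul_sum]
    apply Finset.sum_le_sum
    intro j hj
    have := mul_le_mul_of_nonneg_left (hlow j hj) (hl j hj)
    linarith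
  have h2 : ∑ j ∈ range 8, l j * ∑ k ∈ range 8, 2 * sin (g k / 2) * |cos (a j - ω k)|
      = ∑ k ∈ range 8, 2 * sin (g k / 2) * ∑ j ∈ range 8, l j * |cos (a j - ω k)| := by
    simp only [Finset.mul_sum]
    rw [Finset.sum_comm]
    apply Finset.sum_congr rfl
    intro k _
    apply Finset.sum_congr rfl
    intro j _
    ring
  have h3 : ∑ k ∈ range 8, 2 * sin (g k / 2) * ∑ j ∈ range 8, l j * |cos (a j - ω k)|
      ≤ ∑ k ∈ range 8, 2 * sin (g k / 2) * (2 * W) := by
    apply Finset.sum_le_sum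
    intro k hk
    exact mul_le_mul_of_nonneg_left (hup k hk) (by have := hsin0 k hk; linarith)
  have h4 : ∑ k ∈ range 8, 2 * sin (g k / 2) * (2 * W) = 4 * W * ∑ k ∈ range 8, sin (g k / 2) := by
    rw [Finset.mul_sum]
    apply Finset.sum_congr rfl
    intro k _
    ring
  have h5 : 4 * W * ∑ k ∈ range 8, sin (g k / 2) ≤ 4 * W * (8 * sin (π / 16)) :=
    mul_le_mul_of_nonneg_left hjen (by linarith)
  rw [h2] at h1
  linarith

end Pool.Agent.W94.KN
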